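import Pool.Agent.Helper99.BK.Stmts

namespace Pool.Helper99.BK

/-- the coefficients of one entry -/
noncomputable def an9co (k : ℕ) (u z : ℂ) (s : ℕ) : ℂ :=
  if k ≤ s then (u ^ (s - k) / ((s - k).factorial : ℂ)) * z ^ s else 0

/-- expansion of one entry -/
theorem an9_entry (h4 : ST_AN4) (T k : ℕ) (z u : ℂ) :
    ∃ r : ℂ → ℂ, Differentiable ℂ r ∧ ∀ w : ℂ, (w * z) ^ k * Complex.exp (w * (u * z)) =
      (∑ s ∈ Finset.range T, w ^ s * an9co k u z s) + w ^ T * r w := by
  by_cases hk : T ≤ k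
  · refine ⟨fun w => w ^ (k - T) * z ^ k * Complex.exp (w * (u * z)), by fun_prop, fun w => ?_⟩
    have h0 : (∑ s ∈ Finset.range T, w ^ s * an9co k u z s) = 0 := by
      apply Finset.sum_eq_zero
      intro s hs
      have := Finset.mem_range.1 hs
      rw [an9co, if_neg (by omega), mul_zero]
    rw [h0, zero_add, mul_pow]
    have h1 : w ^ k = w ^ T * w ^ (k - T) := by
      rw [← pow_add]
      congr 1
      omega
    rw [h1]
    ring
  · push Not at hk
    obtain ⟨m, rfl⟩ : ∃ m, T = k + m := ⟨T - k, by omega⟩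
    obtain ⟨r, hr, hr'⟩ := h4 m
    refine ⟨fun w => z ^ k * (u * z) ^ m * r (w * (u * z)), ?_, fun w => ?_⟩
    · exact (differentiable_const _).mul (hr.comp (by fun_prop))
    · rw [Finset.sum_range_add]
      have h0 : (∑ s ∈ Finset.range k, w ^ s * an9co k u z s) = 0 := by
        apply Finset.sum_eq_zero
        intro s hs
        have := Finset.mem_range.1 hs
        rw [an9co, if_neg (by omega), mul_zero]
      rw [h0, zero_add, hr' (w * (u * z)), mul_add, Finset.mul_sum]
      congr 1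
      · refine Finset.sum_congr rfl fun s _ => ?_
        rw [an9co, if_pos (by omega), add_tsub_cancel_left]
        ring
      · ring

theorem an9_card (K Lc : ℕ) : Fintype.card (Fin K × Fin Lc) = K * Lc := by simp

theorem st_AN9 (h2 : ST_AN2) (h3 : ST_AN3) (h4 : ST_AN4) (h5 : ST_AN5) (h6 : ST_AN6) :
    ST_AN9 := by
  intro K Lc I z1 l1 A Z C0 B hZ hC0 hz hc hB hA
  have hBpos : 0 < B := lt_of_lt_of_le (by positivity) hB
  set n : ℝ := (I.card : ℝ) with hn
  set T : ℕ := ⌊n * (n - 1) / 2⌋₊ with hT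
  choose r hr hr' using fun (j p : Fin K × Fin Lc) =>
    an9_entry h4 T (j.1 : ℕ) (z1 p) (((j.2 : ℕ) : ℂ) * l1)
  have hx : 0 ≤ n * (n - 1) / 2 := by
    rcases Nat.eq_zero_or_pos I.card with h | h
    · simp [hn, h]
    · have h1 : (1 : ℝ) ≤ n := by rw [hn]; exact_mod_cast h
      have : 0 ≤ n - 1 := by linarith
      positivity
  obtain ⟨g, hg, hg'⟩ := h3 (Fin K × Fin Lc) I T (fun s => Submodule.span ℂ {fun p => z1 p ^ s})
    (by
      intro t ht
      have h := (h2 (Fin K × Fin Lc) I t).2 (fun s => (ht s).trans ((finrank_span_le_card _).trans (by simp)))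
      have h1 : (T : ℝ) ≤ n * (n - 1) / 2 := Nat.floor_le hx
      have h2 : (T : ℝ) ≤ ∑ j ∈ I, (t j : ℝ) := h1.trans h
      exact_mod_cast h2)
    (fun j s p => an9co (j.1 : ℕ) (((j.2 : ℕ) : ℂ) * l1) (z1 p) s)
    (by
      intro j _ s _
      rw [Submodule.mem_span_singleton]
      by_cases h : (j.1 : ℕ) ≤ s
      · refine ⟨(((j.2 : ℕ) : ℂ) * l1) ^ (s - (j.1 : ℕ)) / ((s - (j.1 : ℕ)).factorial : ℂ), ?_⟩
        funext p
        simp only [an9co, if_pos h, Pi.smul_apply, smul_eq_mul]
      · refine ⟨0, ?_⟩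
        funext p
        simp only [an9co, if_neg h, Pi.smul_apply, smul_eq_mul, zero_mul])
    (fun j p => r j p) (fun j p => hr j p) A
  have key : ∀ w : ℂ, (Matrix.of (fun p j : Fin K × Fin Lc => if j ∈ I then
      (w * z1 p) ^ (j.1 : ℕ) * Complex.exp (w * (((j.2 : ℕ) : ℂ) * l1 * z1 p)) else A p j)).det =
      w ^ T * g w := by
    intro w
    rw [← hg' w]
    congr 1
    refine Matrix.ext fun p j => ?_
    simp only [Matrix.of_apply]
    split_ifs with h
    · exact hr' j p w
    · rfl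
  have h7 := h5 T (fun w => (Matrix.of (fun p j : Fin K × Fin Lc => if j ∈ I then
      (w * z1 p) ^ (j.1 : ℕ) * Complex.exp (w * (((j.2 : ℕ) : ℂ) * l1 * z1 p)) else A p j)).det) g hg
      key (((K * Lc).factorial : ℝ) * B ^ (K * Lc)) (by
    intro w hw
    have h8 := h6 (Fin K × Fin Lc) (Matrix.of (fun p j : Fin K × Fin Lc => if j ∈ I then
      (w * z1 p) ^ (j.1 : ℕ) * Complex.exp (w * (((j.2 : ℕ) : ℂ) * l1 * z1 p)) else A p j)) B ?_
    · rw [an9_card] at h8
      exact h8
    · intro p j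
      simp only [Matrix.of_apply]
      split_ifs with h
      · refine le_trans ?_ hB
        rw [norm_mul, norm_pow, norm_mul, hw]
        have he : Real.exp 1 ≤ 3 := by
          have := Real.exp_one_lt_d9
          linarith
        have h9 : Real.exp 1 * ‖z1 p‖ ≤ 3 * Z :=
          mul_le_mul he (hz p) (norm_nonneg _) (by norm_num)
        have h10 : (Real.exp 1 * ‖z1 p‖) ^ (j.1 : ℕ) ≤ (3 * Z) ^ K :=
          (pow_le_pow_left₀ (by positivity) h9 _).trans
            (pow_le_pow_right₀ (by linarith) (by have := j.1.2; omega))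
        refine mul_le_mul h10 ?_ (norm_nonneg _) (by positivity)
        rw [Complex.norm_exp]
        apply Real.exp_le_exp.2
        refine (Complex.re_le_norm _).trans ?_
        have h11 : w * (((j.2 : ℕ) : ℂ) * l1 * z1 p) = w * (((j.2 : ℕ) : ℂ) * (z1 p * l1)) := by ring
        rw [h11, norm_mul, norm_mul, hw, Complex.norm_natCast]
        have h12 : ((j.2 : ℕ) : ℝ) ≤ Lc := by exact_mod_cast (by have := j.2.2; omega)
        calc Real.exp 1 * (((j.2 : ℕ) : ℝ) * ‖z1 p * l1‖) ≤ 3 * (Lc * C0) :=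
              mul_le_mul he (mul_le_mul h12 (hc p) (norm_nonneg _) (by positivity))
                (by positivity) (by norm_num)
          _ = 3 * Lc * C0 := by ring
      · exact hA p j)
  have h13 : (Matrix.of (fun p j : Fin K × Fin Lc => if j ∈ I then
      (1 * z1 p) ^ (j.1 : ℕ) * Complex.exp (1 * (((j.2 : ℕ) : ℂ) * l1 * z1 p)) else A p j)) =
      (Matrix.of (fun p j : Fin K × Fin Lc => if j ∈ I then
        z1 p ^ (j.1 : ℕ) * Complex.exp (((j.2 : ℕ) : ℂ) * (z1 p * l1)) else A p j)) := by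
    refine Matrix.ext fun p j => ?_
    simp only [Matrix.of_apply, one_mul]
    split_ifs with h
    · congr 2
      ring
    · rfl
  beta_reduce at h7
  rw [h13] at h7
  refine h7.trans ?_
  refine mul_le_mul_of_nonneg_right ?_ (by positivity)
  apply Real.exp_le_exp.2
  have := Nat.lt_floor_add_one (n * (n - 1) / 2)
  rw [← hT] at this
  linarith

end Pool.Helper99.BK
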